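import Pool.Agent.H7.JB.Stmts

/-!
Row GCG of the board `jb14`: numbers.
-/

set_option autoImplicit false

open Finset

namespace Pool.JB7

open Pool.Agent.H23.KT Pool.Agent.H46.KW Pool.KQ Pool.GT7 Pool.GU7 Pool.HZ7

namespace H18

theorem ww_hi (p r B : ℕ) (hr : r ≤ p) (h : r ≤ B) :
    ww p r B = ((p : ℝ) + 3) * ((B : ℝ) + 1 - r) / (((p : ℝ) + 3 - r) * ((B : ℝ) + 1)) := by
  unfold ww gg
  rw [if_neg (by omega)]
  have h1 : (r : ℝ) ≤ p := by exact_mod_cast hr
  have h5 : ((p : ℝ) + 3 - r) ≠ 0 := by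
    have : 0 < ((p : ℝ) + 3 - r) := by linarith only [h1]
    exact this.ne'
  have h6 : ((B : ℝ) + 1) ≠ 0 := by positivity
  push_cast
  field_simp
  ring

theorem ww_lo (p r B : ℕ) (h : B + 1 ≤ r) : ww p r B = 0 := by
  unfold ww gg
  rw [if_pos h, sub_self]

theorem first (p r : ℕ) (r2 : 2 ≤ r) (rp : r ≤ p) (B : ℕ) (hB : B ≤ p + 2) :
    ((p : ℝ) + 2 - B) * (B - 2 * ((r : ℝ) - 1)) ≤
      ((p : ℝ) + 3 - r) * (((p : ℝ) + 2) * ww p r B - B) := by
  have h1 : (r : ℝ) ≤ p := by exact_mod_cast rp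
  have h2 : (2 : ℝ) ≤ r := by exact_mod_cast r2
  have hPR : 0 < (p : ℝ) + 3 - r := by linarith only [h1]
  have hB' : (B : ℝ) ≤ p + 2 := by exact_mod_cast hB
  have hB0 : (0 : ℝ) ≤ B := Nat.cast_nonneg B
  rcases Nat.lt_or_ge B r with h | h
  · rw [ww_lo p r B h]
    have h3 : (B : ℝ) + 1 ≤ r := by exact_mod_cast h
    have h4 : ((p : ℝ) + 3 - r) * B ≤ ((p : ℝ) + 2 - B) * (2 * ((r : ℝ) - 1) - B) :=
      mul_le_mul (by linarith only [h3]) (by linarith only [h3]) hB0 (by linarith only [hB'])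
    linarith only [h4]
  · rw [ww_hi p r B rp h]
    have h3 : (r : ℝ) ≤ B := by exact_mod_cast h
    have hq : 0 < (B : ℝ) + 1 := by linarith only [hB0]
    have e1 : ((p : ℝ) + 3 - r) * (((p : ℝ) + 2) * (((p : ℝ) + 3) * ((B : ℝ) + 1 - r) /
        (((p : ℝ) + 3 - r) * ((B : ℝ) + 1))) - B) =
        ((p : ℝ) + 2 - B) * (((p : ℝ) + 3 - r) * B - ((p : ℝ) + 3) * (r - 1)) / ((B : ℝ) + 1) := by
      field_simp
      ring
    rw [e1, le_div_iff₀ hq]
    rcases Nat.lt_or_ge B (p + 2) with h' | h'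
    · have h5 : (B : ℝ) ≤ p + 1 := by
        have : B ≤ p + 1 := by omega
        exact_mod_cast this
      have h6 : ((B : ℝ) - 2 * ((r : ℝ) - 1)) * ((B : ℝ) + 1) ≤
          ((p : ℝ) + 3 - r) * B - ((p : ℝ) + 3) * (r - 1) := by
        have := mul_nonneg (by linarith only [h3] : (0 : ℝ) ≤ (B : ℝ) - (r - 1))
          (by linarith only [h5] : (0 : ℝ) ≤ (p : ℝ) + 1 - B)
        linarith only [this]
      calc ((p : ℝ) + 2 - B) * (B - 2 * ((r : ℝ) - 1)) * ((B : ℝ) + 1)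
          = ((p : ℝ) + 2 - B) * ((B - 2 * ((r : ℝ) - 1)) * ((B : ℝ) + 1)) := by ring
        _ ≤ _ := mul_le_mul_of_nonneg_left h6 (by linarith only [hB'])
    · have h5 : (B : ℝ) = p + 2 := by
        have : B = p + 2 := le_antisymm hB h'
        exact_mod_cast this
      have h6 : (p : ℝ) + 2 - B = 0 := by linarith only [h5]
      rw [h6]
      simp

theorem tail (P R q : ℝ) (hR : 2 ≤ R) (h3 : P + 4 ≤ 3 * R) (hq : R ≤ q)
    (hqb : q + 1 ≤ P + 3) :
    3 * (q - 1) + 1 / (P + 3) ≤ (P + 2) * (4 - (P + 3) / q) := by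
  have hq0 : 0 < q := by linarith only [hR, hq]
  have hb0 : 0 < P + 3 := by linarith only [hqb, hq0]
  have e : (P + 2) * (4 - (P + 3) / q) = 3 * (q - 1) + (P + 3 - q) * (3 * q - (P + 3) + 1) / q := by
    field_simp
    ring
  rw [e]
  have h1 : (1 : ℝ) ≤ (P + 3 - q) * (3 * q - (P + 3) + 1) := by
    have := mul_le_mul (by linarith only [hqb] : (1 : ℝ) ≤ P + 3 - q)
      (by linarith only [h3, hq] : (1 : ℝ) ≤ 3 * q - (P + 3) + 1) (by norm_num)
      (by linarith only [hqb])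
    linarith only [this]
  have h2 : 1 / (P + 3) ≤ (P + 3 - q) * (3 * q - (P + 3) + 1) / q :=
    div_le_div₀ (by linarith only [h1]) h1 hq0 (by linarith only [hqb])
  linarith only [h2]

end H18

open H18 in
theorem gcg_thm : GCGStmt := by
  intro p r hP
  obtain ⟨hg, rp⟩ := hP
  have r2 : 2 ≤ r := by omega
  have p2 : 2 ≤ p := by omega
  have h1 : (r : ℝ) ≤ p := by exact_mod_cast rp
  have h2 : (2 : ℝ) ≤ r := by exact_mod_cast r2
  have h3 : (p : ℝ) + 4 ≤ 3 * r := by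
    have : p + 4 ≤ 3 * r := by omega
    exact_mod_cast this
  have hr0 : 0 < (r : ℝ) := by linarith only [h2]
  have hr0' : (r : ℝ) ≠ 0 := hr0.ne'
  have hPR : 0 < (p : ℝ) + 3 - r := by linarith only [h1]
  have hPR' : (p : ℝ) + 3 - r ≠ 0 := hPR.ne'
  have eph : 2 * r * ph p r = (p : ℝ) + 3 - r := by
    unfold ph
    field_simp
  have hph0 : 0 < ph p r := by
    unfold ph
    positivity
  have hph1 : ph p r < 1 := by
    unfold ph
    rw [div_lt_one (by positivity)]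
    linarith only [h3]
  have e1 : (1 - ph p r) = (3 * r - ((p : ℝ) + 3)) / (2 * r) := by
    unfold ph
    field_simp
    ring
  refine ⟨⟨p2, by omega, rp⟩, hph0, hph1, ?_, ?_, ?_⟩
  · rw [e1, ← mul_div_assoc, lt_div_iff₀ (by positivity)]
    have := mul_le_mul_of_nonneg_left (by linarith only [h3] : (1 : ℝ) ≤ 3 * r - ((p : ℝ) + 3))
      (by linarith only [hPR, h2] : (0 : ℝ) ≤ (p : ℝ) + 2)
    linarith only [this, h1]
  · intro B hB
    have a1 := first p r r2 rp B hB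
    have a2 : 2 * r * (((p : ℝ) + 2) * (1 - ph p r) + ph p r * ((p : ℝ) + 2) * ww p r B - B) =
        ((p : ℝ) + 2) * (2 * r - 2 * r * ph p r) + 2 * r * ph p r * (((p : ℝ) + 2) * ww p r B) -
          2 * r * B := by ring
    rw [a2, eph]
    linarith only [a1]
  · intro B hB
    have hB1 : (B : ℝ) ≤ p + 1 := by exact_mod_cast hB
    have hB0 : (0 : ℝ) ≤ B := Nat.cast_nonneg B
    have e2 : ph p r = ((p : ℝ) + 3 - r) / (2 * r) := rfl
    rcases Nat.lt_or_ge B r with h | h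
    · rw [ww_lo p r B h]
      have h4 : (B : ℝ) + 1 ≤ r := by exact_mod_cast h
      have a1 := tail (p : ℝ) r r h2 h3 le_rfl (by linarith only [h1])
      have a2 : ((p : ℝ) + 2) + 2 * (((p : ℝ) + 2) * (1 - ph p r) +
          ph p r * ((p : ℝ) + 2) * 0) = ((p : ℝ) + 2) * (4 - ((p : ℝ) + 3) / r) := by
        rw [e2]
        field_simp
        ring
      rw [a2]
      linarith only [a1, h4]
    · rw [ww_hi p r B rp h]
      have h4 : (r : ℝ) ≤ B := by exact_mod_cast h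
      have hq : (0 : ℝ) < (B : ℝ) + 1 := by linarith only [hB0]
      have hq' : (B : ℝ) + 1 ≠ 0 := hq.ne'
      have a1 := tail (p : ℝ) r ((B : ℝ) + 1) h2 h3 (by linarith only [h4])
        (by linarith only [hB1])
      have a2 : ((p : ℝ) + 2) + 2 * (((p : ℝ) + 2) * (1 - ph p r) +
          ph p r * ((p : ℝ) + 2) * (((p : ℝ) + 3) * ((B : ℝ) + 1 - r) /
            (((p : ℝ) + 3 - r) * ((B : ℝ) + 1)))) =
          ((p : ℝ) + 2) * (4 - ((p : ℝ) + 3) / ((B : ℝ) + 1)) := by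
        rw [e2]
        field_simp
        ring
      rw [a2]
      linarith only [a1]

end Pool.JB7
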